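import Mathlib
import Pool.Agent.R342.Seb.Final

/-!
# Manipulability of the random `d`-ary single elimination bracket

For all `3 ≤ k ≤ d` the manipulability `α_{d,k}` of the rule R`d`SEB is at least `227 / 420`.

For `d ≥ 7` one round suffices: the three teams `0, 1, 2` form a cycle and beat everybody else;
after the manipulation team `0` beats everybody.  For `3 ≤ d ≤ 6` two rounds are used: before the
manipulation team `0` loses exactly to its partners `3` and `4`, which lose to the two outsiders
`1` and `2`; the exact winning probability of `{0, 3, 4}` is computed.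
-/

namespace Pool.Agent.Results.MP_5ab447_lc.ManipulabilityBound

open Pool.Agent.R342.Seb

/-- For all `3 ≤ k ≤ d`, the least `α` such that R`d`SEB is `k`-SNM-`α` (for all `n = d ^ h`,
`h ≥ 1`) exists and is at least `227 / 420`. -/
theorem result : ∀ k d : ℕ, 3 ≤ k → k ≤ d →
    IsLeast {α : ℝ | IsSNM d k α} (manip d k) ∧ (227 : ℝ) / 420 ≤ manip d k := by
  intro k d hk hd
  exact ⟨isLeast_manip d k, (manip_three d (hk.trans hd)).trans (manip_mono d 3 k hk)⟩

end Pool.Agent.Results.MP_5ab447_lc.ManipulabilityBound
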